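import Pool.Agent.H22.FOT.Defs2

open MeasureTheory unitInterval Set Filter Topology

namespace Pool.FOT

open Pool.Agent.H99.LowerTail

theorem convexOn_relEnt {p : ℝ} (hp0 : 0 < p) (hp1 : p < 1) :
    ConvexOn ℝ (Icc (0 : ℝ) 1) (relEnt p) := by
  have h1 : ConvexOn ℝ (Icc (0 : ℝ) 1) (-Real.binEntropy) :=
    Real.strictConcave_binEntropy.concaveOn.neg
  have h2 : ConvexOn ℝ (Icc (0 : ℝ) 1)
      (fun x : ℝ => (Real.log (1 - p) - Real.log p) * x + (-Real.log (1 - p))) := by
    refine ⟨convex_Icc 0 1, ?_⟩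
    intro x _ y _ a b _ _ hab
    apply le_of_eq
    simp only [smul_eq_mul]
    linear_combination (Real.log (1 - p)) * hab
  have h3 : relEnt p = -Real.binEntropy +
      (fun x : ℝ => (Real.log (1 - p) - Real.log p) * x + (-Real.log (1 - p))) := by
    funext x
    rw [relEnt_eq hp0 hp1]
    simp only [Pi.add_apply, Pi.neg_apply, Real.binEntropy, Real.log_inv]
    ring
  rw [h3]
  exact h1.add h2

theorem t_jen : JENStmt := by
  intro p W hp0 hp1
  have h := (convexOn_relEnt hp0 hp1).map_integral_le (μ := (volume : Measure (I × I)))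
    (f := fun z : I × I => W z.1 z.2) (continuous_relEnt hp0 hp1).continuousOn isClosed_Icc
    (Filter.Eventually.of_forall fun z => ⟨W.nonneg' _ _, W.le_one' _ _⟩)
    (integrable_comp continuous_id W) (integrable_comp (continuous_relEnt hp0 hp1) W)
  exact h

end Pool.FOT
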