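import Pool.Agent.H22.FOT.Defs2

open MeasureTheory unitInterval Set Filter Topology

namespace Pool.FOT

open Pool.Agent.H99.LowerTail

theorem t_mrl : MRLStmt := by
  classical
  intro W q hq B hB
  have hmW : Measurable (fun z : I × I => W z.1 z.2) := W.measurable'
  let b : I → ℝ := B.indicator fun _ => 1
  have hb : Measurable b := measurable_const.indicator hB
  have hb01 : ∀ t, 0 ≤ b t ∧ b t ≤ 1 := by
    intro t
    by_cases ht : t ∈ B
    · have : b t = 1 := Set.indicator_of_mem ht _
      rw [this]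
      exact ⟨zero_le_one, le_rfl⟩
    · have : b t = 0 := Set.indicator_of_notMem ht _
      rw [this]
      exact ⟨le_rfl, zero_le_one⟩
  have hWq : ∀ x y, |W x y - q| ≤ 1 := by
    intro x y
    have a1 := W.nonneg' x y
    have a2 := W.le_one' x y
    have a3 := hq.1
    have a4 := hq.2
    rw [abs_le]
    constructor <;> linarith
  have hint : ∀ g : I × I → ℝ, Measurable g → (∀ z, |g z| ≤ 1) → Integrable g := by
    intro g hg h1
    exact Integrable.of_bound hg.aestronglyMeasurable 1 (Filter.Eventually.of_forall h1)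
  have hmq : Measurable (fun z : I × I => W z.1 z.2 - q) := hmW.sub_const q
  have i0 : Integrable (fun z : I × I => W z.1 z.2 - q) := hint _ hmq fun z => hWq _ _
  have m1 : Measurable (fun z : I × I => b z.1 * (W z.1 z.2 - q)) :=
    (hb.comp measurable_fst).mul hmq
  have m2 : Measurable (fun z : I × I => b z.2 * (W z.1 z.2 - q)) :=
    (hb.comp measurable_snd).mul hmq
  have m3 : Measurable (fun z : I × I => b z.1 * b z.2 * (W z.1 z.2 - q)) :=
    ((hb.comp measurable_fst).mul (hb.comp measurable_snd)).mul hmq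
  have m4 : Measurable (fun z : I × I => b z.1 * b z.2) :=
    (hb.comp measurable_fst).mul (hb.comp measurable_snd)
  have habs : ∀ s t : ℝ, 0 ≤ s → s ≤ 1 → |t| ≤ 1 → |s * t| ≤ 1 := by
    intro s t h1 h2 h3
    rw [abs_mul, abs_of_nonneg h1]
    exact mul_le_one₀ h2 (abs_nonneg _) h3
  have i1 : Integrable (fun z : I × I => b z.1 * (W z.1 z.2 - q)) :=
    hint _ m1 fun z => habs _ _ (hb01 _).1 (hb01 _).2 (hWq _ _)
  have i2 : Integrable (fun z : I × I => b z.2 * (W z.1 z.2 - q)) :=
    hint _ m2 fun z => habs _ _ (hb01 _).1 (hb01 _).2 (hWq _ _)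
  have hbb : ∀ z : I × I, 0 ≤ b z.1 * b z.2 ∧ b z.1 * b z.2 ≤ 1 := fun z =>
    ⟨mul_nonneg (hb01 _).1 (hb01 _).1, mul_le_one₀ (hb01 _).2 (hb01 _).1 (hb01 _).2⟩
  have i3 : Integrable (fun z : I × I => b z.1 * b z.2 * (W z.1 z.2 - q)) :=
    hint _ m3 fun z => habs _ _ (hbb z).1 (hbb z).2 (hWq _ _)
  have i4 : Integrable (fun z : I × I => b z.1 * b z.2) :=
    hint _ m4 fun z => by
      rw [abs_of_nonneg (hbb z).1]
      exact (hbb z).2
  -- pointwise
  have hpt : ∀ z : I × I, repl W q hq B hB z.1 z.2 - q =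
      ((W z.1 z.2 - q) - b z.1 * (W z.1 z.2 - q)) - b z.2 * (W z.1 z.2 - q) +
        b z.1 * b z.2 * (W z.1 z.2 - q) := by
    intro z
    have hval : repl W q hq B hB z.1 z.2 = if z.1 ∈ B ∨ z.2 ∈ B then q else W z.1 z.2 := by
      change ite (z.1 ∈ B ∨ z.2 ∈ B) q (W z.1 z.2) = _
      congr
    rw [hval]
    by_cases h1 : z.1 ∈ B
    · have e1 : b z.1 = 1 := Set.indicator_of_mem h1 _
      rw [if_pos (Or.inl h1), e1]
      ring
    · have e1 : b z.1 = 0 := Set.indicator_of_notMem h1 _
      by_cases h2 : z.2 ∈ B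
      · have e2 : b z.2 = 1 := Set.indicator_of_mem h2 _
        rw [if_pos (Or.inr h2), e1, e2]
        ring
      · have e2 : b z.2 = 0 := Set.indicator_of_notMem h2 _
        rw [if_neg (by tauto), e1, e2]
        ring
  have hsum : ∫ z : I × I, (repl W q hq B hB z.1 z.2 - q) =
      ((∫ z : I × I, (W z.1 z.2 - q)) - ∫ z : I × I, b z.1 * (W z.1 z.2 - q)) -
        (∫ z : I × I, b z.2 * (W z.1 z.2 - q)) +
        ∫ z : I × I, b z.1 * b z.2 * (W z.1 z.2 - q) := by
    rw [integral_congr_ae (Filter.Eventually.of_forall hpt)]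
    have e1 := integral_add ((i0.sub i1).sub i2) i3
    have e2 := integral_sub (i0.sub i1) i2
    have e3 := integral_sub i0 i1
    refine e1.trans ?_
    rw [← e3]
    exact congrArg (· + _) e2
  -- the first two
  have iW : ∀ x, Integrable (fun y : I => W x y) := by
    intro x
    have hmx : Measurable (fun y : I => W x y) :=
      W.measurable'.comp (measurable_const.prodMk measurable_id)
    refine Integrable.of_bound hmx.aestronglyMeasurable 1 (Filter.Eventually.of_forall fun y => ?_)
    rw [Real.norm_eq_abs, abs_of_nonneg (W.nonneg' _ _)]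
    exact W.le_one' _ _
  have hE0 : ∫ z : I × I, (W z.1 z.2 - q) = mean W - q := by
    have iWW : Integrable (fun z : I × I => W z.1 z.2) :=
      hint _ hmW fun z => by
        rw [abs_of_nonneg (W.nonneg' _ _)]
        exact W.le_one' _ _
    have e := integral_sub iWW (integrable_const q)
    rw [e]
    simp [mean]
  have hE1 : ∫ z : I × I, b z.1 * (W z.1 z.2 - q) = ∫ t in B, (rowAv W t - q) := by
    have e1 : ∫ z : I × I, b z.1 * (W z.1 z.2 - q) =
        ∫ x : I, ∫ y : I, b x * (W x y - q) := integral_prod _ i1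
    have e2 : ∀ x : I, ∫ y : I, b x * (W x y - q) = B.indicator (fun t => rowAv W t - q) x := by
      intro x
      have e3 : ∫ y : I, (W x y - q) = rowAv W x - q := by
        have e4 := integral_sub (iW x) (integrable_const q)
        rw [e4]
        simp [rowAv]
      rw [integral_const_mul, e3]
      by_cases hx : x ∈ B
      · have e5 : b x = 1 := Set.indicator_of_mem hx _
        rw [e5, Set.indicator_of_mem hx, one_mul]
      · have e5 : b x = 0 := Set.indicator_of_notMem hx _
        rw [e5, Set.indicator_of_notMem hx, zero_mul]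
    rw [e1, integral_congr_ae (Filter.Eventually.of_forall e2), integral_indicator hB]
  have hE2 : ∫ z : I × I, b z.2 * (W z.1 z.2 - q) = ∫ z : I × I, b z.1 * (W z.1 z.2 - q) := by
    have e1 := integral_prod_swap (μ := (volume : Measure I)) (ν := (volume : Measure I))
      (fun z : I × I => b z.1 * (W z.1 z.2 - q))
    refine Eq.trans ?_ e1
    refine integral_congr_ae (Filter.Eventually.of_forall fun z => ?_)
    change b z.2 * (W z.1 z.2 - q) = b z.2 * (W z.2 z.1 - q)
    rw [W.symm' z.1 z.2]
  have hE3 : -(volume.real B ^ 2) ≤ ∫ z : I × I, b z.1 * b z.2 * (W z.1 z.2 - q) := by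
    have e1 : ∫ z : I × I, b z.1 * b z.2 = volume.real B ^ 2 := by
      have e2 := integral_prod_mul (μ := (volume : Measure I)) (ν := (volume : Measure I)) b b
      have e3 : ∫ x : I, b x = volume.real B := integral_indicator_one hB
      rw [e3, ← sq] at e2
      exact e2
    rw [← e1, ← integral_neg]
    refine integral_mono i4.neg i3 fun z => ?_
    have h1 := (abs_le.1 (hWq z.1 z.2)).1
    have h2 := (hbb z).1
    change -(b z.1 * b z.2) ≤ b z.1 * b z.2 * (W z.1 z.2 - q)
    nlinarith
  rw [hsum, hE0, hE2, hE1]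
  linarith

end Pool.FOT
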