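import Pool.Agent.H22.FOT.Defs2
import Pool.Agent.H38.FOT.EVP

open MeasureTheory unitInterval Set Filter Topology ProbabilityTheory

namespace Pool.FOT

open Pool.Agent.H99.LowerTail

namespace MTC

lemma sVal_congr {V Ω : Type} (f : Ω → Ω → ℝ) (hf : ∀ x y, f x y = f y x) (x y : V → Ω)
    (e : Sym2 V) (h : ∀ v ∈ e, x v = y v) : sVal f hf x e = sVal f hf y e := by
  induction e using Sym2.ind with
  | _ i j =>
    rw [sVal_mk, sVal_mk, h i (Sym2.mem_mk_left i j), h j (Sym2.mem_mk_right i j)]

lemma meas_sVal {V : Type} [Fintype V] (W : Graphon) (e : Sym2 V) :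
    Measurable (fun x : V → I => sVal W W.symm' x e) := by
  induction e using Sym2.ind with
  | _ i j =>
    have h : Measurable (fun x : V → I => (x i, x j)) :=
      (measurable_pi_apply i).prodMk (measurable_pi_apply j)
    exact W.measurable'.comp h

/-- Functions of disjoint sets of coordinates. -/
lemma split {V : Type} [Fintype V] [DecidableEq V] (S : Finset V) (f g : (V → I) → ℝ)
    (hf : Measurable f) (hg : Measurable g) (h1 : ∀ x y : V → I, (∀ v ∈ S, x v = y v) → f x = f y)
    (h2 : ∀ x y : V → I, (∀ v ∉ S, x v = y v) → g x = g y) :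
    ∫ x, f x * g x ∂(Measure.pi fun _ : V => (volume : Measure I)) =
      (∫ x, f x ∂(Measure.pi fun _ : V => (volume : Measure I))) *
        ∫ x, g x ∂(Measure.pi fun _ : V => (volume : Measure I)) := by
  have hI := (Ev.indep (V := V) (volume : Measure I)).indepFun_finset S Sᶜ disjoint_compl_right
    Ev.meas
  let eS : (S → I) → V → I := fun y v => if h : v ∈ S then y ⟨v, h⟩ else 0
  let eT : ((Sᶜ : Finset V) → I) → V → I := fun y v => if h : v ∈ Sᶜ then y ⟨v, h⟩ else 0
  have mS : Measurable eS := by
    rw [measurable_pi_iff]
    intro v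
    by_cases h : v ∈ S
    · have : (fun y => eS y v) = fun y => y ⟨v, h⟩ := by
        funext y
        exact dif_pos h
      rw [this]
      exact measurable_pi_apply _
    · have : (fun y => eS y v) = fun _ => 0 := by
        funext y
        exact dif_neg h
      rw [this]
      exact measurable_const
  have mT : Measurable eT := by
    rw [measurable_pi_iff]
    intro v
    by_cases h : v ∈ Sᶜ
    · have : (fun y => eT y v) = fun y => y ⟨v, h⟩ := by
        funext y
        exact dif_pos h
      rw [this]
      exact measurable_pi_apply _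
    · have : (fun y => eT y v) = fun _ => 0 := by
        funext y
        exact dif_neg h
      rw [this]
      exact measurable_const
  have hc := hI.comp (hf.comp mS) (hg.comp mT)
  have e1 : (f ∘ eS) ∘ (fun (a : V → I) (i : S) => a i) = f := by
    funext x
    refine h1 _ _ fun v hv => ?_
    exact dif_pos hv
  have e2 : (g ∘ eT) ∘ (fun (a : V → I) (i : (Sᶜ : Finset V)) => a i) = g := by
    funext x
    refine h2 _ _ fun v hv => ?_
    exact dif_pos (Finset.mem_compl.2 hv)
  rw [e1, e2] at hc
  exact hc.integral_fun_mul_eq_mul_integral hf.aestronglyMeasurable hg.aestronglyMeasurable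

lemma aux {V : Type} [Fintype V] [DecidableEq V] (W : Graphon) (A : Finset (Sym2 V)) :
    (∀ e ∈ A, ¬ e.IsDiag) → (∀ e ∈ A, ∀ e' ∈ A, e ≠ e' → ∀ v, v ∈ e → v ∉ e') →
    sDens volume A W W.symm' = mean W ^ A.card := by
  induction A using Finset.induction_on with
  | empty =>
    intro _ _
    simp [sDens]
  | insert e A he ih =>
    intro hd hm
    have ih' := ih (fun e' he' => hd e' (Finset.mem_insert_of_mem he'))
      (fun e1 h1 e2 h2 => hm e1 (Finset.mem_insert_of_mem h1) e2 (Finset.mem_insert_of_mem h2))
    have hsm : ∫ x, sVal W W.symm' x e ∂(Measure.pi fun _ : V => (volume : Measure I)) =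
        mean W := by
      have hde := hd e (Finset.mem_insert_self _ _)
      clear hm he hd
      induction e using Sym2.ind with
      | _ i j =>
        have hij : i ≠ j := by simpa using hde
        have h1 := Ev.mp2 (V := V) (volume : Measure I) i j hij
        have h2 := h1.map_eq
        have h3 : AEStronglyMeasurable (fun z : I × I => W z.1 z.2)
            (Measure.map (fun x : V → I => (x i, x j)) (Measure.pi fun _ => volume)) :=
          W.measurable'.aestronglyMeasurable
        have h4 := integral_map h1.measurable.aemeasurable h3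
        rw [h2] at h4
        exact h4.symm
    let S : Finset V := Finset.univ.filter fun v => v ∈ e
    have hS : ∀ v, v ∈ S ↔ v ∈ e := by
      intro v
      simp [S]
    have hsp := split S (fun x => sVal W W.symm' x e) (fun x => ∏ e' ∈ A, sVal W W.symm' x e')
      (meas_sVal W e) (Finset.measurable_fun_prod A fun e' _ => meas_sVal W e')
      (fun x y h => sVal_congr _ _ x y e fun v hv => h v ((hS v).2 hv))
      (fun x y h => Finset.prod_congr rfl fun e' he' => sVal_congr _ _ x y e' fun v hv =>
        h v fun hv' => hm e (Finset.mem_insert_self _ _) e' (Finset.mem_insert_of_mem he')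
          (fun hh => he (hh ▸ he')) v ((hS v).1 hv') hv)
    have e1 : sDens volume (insert e A) W W.symm' =
        ∫ x, sVal W W.symm' x e * ∏ e' ∈ A, sVal W W.symm' x e'
          ∂(Measure.pi fun _ : V => (volume : Measure I)) := by
      unfold sDens
      simp only [Finset.prod_insert he]
    rw [e1, hsp, hsm, Finset.card_insert_of_notMem he, pow_succ']
    exact congrArg (mean W * ·) ih'

end MTC

theorem t_mtc : MTCStmt := by
  classical
  intro V _ H hdeg W
  rw [homDensity_eq, numEdges_eq]
  have hmem : ∀ e, e ∈ edges H ↔ e ∈ H.edgeSet := by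
    intro e
    unfold edges
    exact SimpleGraph.mem_edgeFinset
  refine MTC.aux W (edges H) (fun e he => ?_) (fun e he e' he' hne v hv hv' => ?_)
  · exact H.not_isDiag_of_mem_edgeSet ((hmem e).1 he)
  · obtain ⟨a, rfl⟩ := Sym2.mem_iff_exists.1 hv
    obtain ⟨b, rfl⟩ := Sym2.mem_iff_exists.1 hv'
    have ha : H.Adj v a := (SimpleGraph.mem_edgeSet H).1 ((hmem _).1 he)
    have hb : H.Adj v b := (SimpleGraph.mem_edgeSet H).1 ((hmem _).1 he')
    have hab : a ≠ b := fun h => hne (by rw [h])
    have h1 := hdeg v
    unfold dg at h1
    have h2 : ({a, b} : Finset V) ⊆ H.neighborFinset v := by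
      intro x hx
      rw [SimpleGraph.mem_neighborFinset]
      rcases Finset.mem_insert.1 hx with h | h
      · rw [h]
        exact ha
      · rw [Finset.mem_singleton.1 h]
        exact hb
    have h3 := Finset.card_le_card h2
    rw [Finset.card_pair hab, SimpleGraph.card_neighborFinset_eq_degree] at h3
    omega

end Pool.FOT
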