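import Pool.Agent.H22.FOT.Defs2

open MeasureTheory unitInterval Set Filter Topology

namespace Pool.FOT

open Pool.Agent.H99.LowerTail

theorem t_rwl : RWLStmt := by
  intro W q hq η hη hB x
  have hmW : Measurable (fun y : I => W x y) :=
    W.measurable'.comp (measurable_const.prodMk measurable_id)
  have hmR : Measurable (fun y : I => repl W q hq _ hB x y) :=
    (repl W q hq _ hB).measurable'.comp (measurable_const.prodMk measurable_id)
  have hiW : Integrable (fun y : I => W x y) := by
    refine Integrable.of_bound hmW.aestronglyMeasurable 1 (Filter.Eventually.of_forall fun y => ?_)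
    rw [Real.norm_eq_abs, abs_of_nonneg (W.nonneg' _ _)]
    exact W.le_one' _ _
  have hval : ∀ y, repl W q hq _ hB x y = if x ∈ {x : I | η < |rowAv W x - q|} ∨
      y ∈ {x : I | η < |rowAv W x - q|} then q else W x y := fun y => rfl
  by_cases hx : x ∈ {x : I | η < |rowAv W x - q|}
  · have h0 : ∀ y, |repl W q hq _ hB x y - q| = 0 := by
      intro y
      rw [hval, if_pos (Or.inl hx), sub_self, abs_zero]
    have h1 : ∫ y : I, |repl W q hq _ hB x y - q| = 0 := by
      rw [integral_congr_ae (Filter.Eventually.of_forall h0)]
      simp
    rw [h1]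
    have := hq.2
    linarith
  · have h2 : |rowAv W x - q| ≤ η := not_lt.1 hx
    have h3 : ∀ y, |repl W q hq _ hB x y - q| ≤ (1 - W x y) + (1 - q) := by
      intro y
      have a1 := W.nonneg' x y
      have a2 := W.le_one' x y
      have a3 := hq.1
      have a4 := hq.2
      rw [hval]
      split_ifs
      · rw [sub_self, abs_zero]
        linarith
      · rw [abs_le]
        constructor <;> linarith
    have hiR : Integrable (fun y : I => |repl W q hq _ hB x y - q|) := by
      refine Integrable.of_bound (hmR.sub_const q).abs.aestronglyMeasurable 1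
        (Filter.Eventually.of_forall fun y => ?_)
      rw [Real.norm_eq_abs, abs_abs, abs_le]
      have a1 := (repl W q hq _ hB).nonneg' x y
      have a2 := (repl W q hq _ hB).le_one' x y
      have a3 := hq.1
      have a4 := hq.2
      constructor <;> linarith
    have hi1 : Integrable (fun y : I => (1 - W x y) + (1 - q)) :=
      ((integrable_const _).sub hiW).add (integrable_const _)
    have h4 := integral_mono hiR hi1 h3
    have h5 : ∫ y : I, ((1 - W x y) + (1 - q)) = (1 - rowAv W x) + (1 - q) := by
      have e1 : ∫ y : I, ((1 - W x y) + (1 - q)) = (∫ y : I, (1 - W x y)) + ∫ _y : I, (1 - q) :=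
        integral_add ((integrable_const _).sub hiW) (integrable_const _)
      have e2 : ∫ y : I, (1 - W x y) = (∫ _y : I, (1 : ℝ)) - ∫ y : I, W x y :=
        integral_sub (integrable_const _) hiW
      rw [e1, e2]
      simp [rowAv]
    rw [h5] at h4
    have h6 := (abs_le.1 h2).1
    linarith

end Pool.FOT
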